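import Pool.Agent.helper96.PP2.SpecA

namespace Pool.Agent.PP2

open Topology Matrix

lemma FNB_arith (q : ℕ) (hq : 2 ≤ q) : ¬ q ^ 3 ≤ 1 + q ^ 2 := by
  intro h
  have h1 : 2 * q ^ 2 ≤ q ^ 3 := by
    have : q ^ 3 = q * q ^ 2 := by ring
    rw [this]
    exact Nat.mul_le_mul_right _ hq
  have h2 : 2 ^ 2 ≤ q ^ 2 := Nat.pow_le_pow_left hq 2
  omega

theorem FNB_row (hEUL : EUL_stmt) (hSHA : SHA_stmt) (hCIN : CIN_stmt) (hH2U : H2U_stmt)
    (hH1U : H1U_stmt) (hH2L : H2L_stmt) (hSHF : SHF_stmt) (hIXN : IXN_stmt) : FNB_stmt := by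
  intro p U _ _ _ _ F d hp hp2 hF hF1 hd hH3
  have hix := hIXN p U F hp hF
  have hProP : ProP p U := by
    intro V hV _
    obtain ⟨j, hj⟩ := hF.basis (V : Set U) (hV.mem_nhds (one_mem V))
    have h1 : V.index ∣ (F j).index := Subgroup.index_dvd_of_le hj
    rw [(hix j).2, hF1, ← pow_mul] at h1
    obtain ⟨k, _, hk⟩ := (Nat.dvd_prime_pow hp).mp h1
    exact ⟨k, hk⟩
  have hα : h1 U (Fp p) = p ^ d := hH1U p U F d hp hF hF1
  have hβ := hH2U p U F d hp hp2 hF hF1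
  have hβ2 : p ^ d ≤ h2 U (Fp p) := hH2L p U F d hp hF hF1 hd hβ.1
  have hαne : h1 U (Fp p) ≠ 0 := by
    rw [hα]
    exact pow_ne_zero _ hp.ne_zero
  have hαβ : h1 U (Fp p) ≤ h2 U (Fp p) := by
    rw [hα]
    exact hβ2
  -- the subgroup `F 3`
  have hop : IsOpen (F 3 : Set U) := hF.op 3
  have : CompactSpace (F 3) := isCompact_iff_compactSpace.mp
    ((Subgroup.isClosed_of_isOpen (F 3) hop).isCompact)
  obtain ⟨hfin, hcard, hkill, hsm, hh0⟩ := hCIN p U (F 3) hop hp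
  obtain ⟨e1, e2, e3⟩ := hEUL p U hp hProP hH3 hαne hβ.1 hαβ (IndF p (F 3)) hfin hkill hsm
  have hshf := hSHF p U F hF 3
  have hidx : ((F (3 + 1)).subgroupOf (F 3)).index = p ^ d := by
    rw [(hix 3).1, hF1]
  have hN := hH2U p (F 3) (fun j => (F (3 + j)).subgroupOf (F 3)) d hp hp2 hshf hidx
  have hsha := hSHA p U (F 3) hop hp hN.1
  have hi3 : (F 3).index = (p ^ d) ^ 3 := by
    rw [(hix 3).2, hF1]
  rw [hcard, hh0, hi3] at e3
  have hmain : p ^ ((p ^ d) ^ 3) ≤ p ^ (1 + (p ^ d) ^ 2) := by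
    calc p ^ ((p ^ d) ^ 3) ≤ p ^ ((p ^ d) ^ 3) * h1 U (IndF p (F 3)) :=
          Nat.le_mul_of_pos_right _ (Nat.pos_of_ne_zero e1)
      _ ≤ p * h2 U (IndF p (F 3)) := e3
      _ ≤ p * p ^ (p ^ (2 * d)) := Nat.mul_le_mul_left _ (hsha.2.trans hN.2)
      _ = p ^ (1 + (p ^ d) ^ 2) := by
          rw [pow_add, pow_one, ← pow_mul, mul_comm d 2]
  have h5 := (Nat.pow_le_pow_iff_right hp.one_lt).mp hmain
  apply FNB_arith (p ^ d) _ h5
  calc 2 ≤ p := hp.two_le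
    _ = p ^ 1 := (pow_one p).symm
    _ ≤ p ^ d := Nat.pow_le_pow_right hp.pos (by omega)

end Pool.Agent.PP2
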